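import Pool.Agent.Helper98.GX.St2

/-!
# Project GX, module CBD: degrees of principal divisors and of the basis classes
-/

set_option autoImplicit false

open scoped BigOperators

namespace Pool.Agent.Helper67.GX

open Pool.Agent.Helper98.GX
open Pool.Agent.Helper53.CX (DivVal LinSys IsNefCartier)

section
variable {K : Type} [Field K] [Algebra ℂ K] (v : DivVal K)

private theorem cbd_one : v.ord 1 = 0 := by
  have h := v.ord_mul 1 1 one_ne_zero one_ne_zero
  rw [one_mul] at h
  omega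

private theorem cbd_pow (f : K) (hf : f ≠ 0) (n : ℕ) : v.ord (f ^ n) = n * v.ord f := by
  induction n with
  | zero => simp [cbd_one]
  | succ n ih =>
    rw [pow_succ, v.ord_mul _ _ (pow_ne_zero _ hf) hf, ih]
    push_cast
    ring

private theorem cbd_inv (f : K) (hf : f ≠ 0) : v.ord f⁻¹ = - v.ord f := by
  have h := v.ord_mul f f⁻¹ hf (inv_ne_zero hf)
  rw [mul_inv_cancel₀ hf, cbd_one] at h
  omega

private theorem cbd_zpow (f : K) (hf : f ≠ 0) (n : ℤ) : v.ord (f ^ n) = n * v.ord f := by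
  obtain ⟨k, rfl | rfl⟩ := n.eq_nat_or_neg
  · rw [zpow_natCast, cbd_pow v f hf]
  · rw [zpow_neg, zpow_natCast, cbd_inv v _ (pow_ne_zero _ hf), cbd_pow v f hf]
    ring

private theorem cbd_prod {ι : Type} (s : Finset ι) (φ : ι → K) (hs : ∀ i ∈ s, φ i ≠ 0)
    (m : ι → ℤ) : v.ord (∏ i ∈ s, φ i ^ m i) = ∑ i ∈ s, m i * v.ord (φ i) := by
  classical
  induction s using Finset.induction_on with
  | empty => simp [cbd_one]
  | insert a s ha ih =>
    rw [Finset.prod_insert ha, Finset.sum_insert ha, v.ord_mul, cbd_zpow v _ (hs a (by simp)),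
      ih fun f hf => hs f (by simp [hf])]
    · exact zpow_ne_zero _ (hs a (by simp))
    · exact Finset.prod_ne_zero_iff.2 fun f hf => zpow_ne_zero _ (hs f (by simp [hf]))

end

/-- the common part of (1) and (2) -/
private theorem cbd_key {K : Type} [Field K] [Algebra ℂ K] (V : NormalProj K) (r : ℕ)
    (B : ClassBasis V r) (N : DivVal K → ℤ) (f : K) (hf : f ≠ 0) (b : Fin r → ℤ)
    (hN : ∀ q ∈ V.primes, N q = q.ord f + ∑ k, b k * (B.H k).div q)
    (hfin : {p : DivVal K | p ∈ V.primes ∧ N p ≠ 0}.Finite) (l : Fin r) :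
    ∑ᶠ p ∈ V.primes, (B.deg p l : ℤ) * N p = b l := by
  classical
  choose! φ hφ0 hφ1 hφ2 using B.sec
  set F : Finset (DivVal K) := hfin.toFinset with hF
  have hmem : ∀ p, p ∈ F ↔ p ∈ V.primes ∧ N p ≠ 0 := fun p => by
    rw [hF, Set.Finite.mem_toFinset]
    rfl
  have hsum : ∑ᶠ p ∈ V.primes, (B.deg p l : ℤ) * N p = ∑ p ∈ F, (B.deg p l : ℤ) * N p := by
    refine finsum_mem_eq_sum_of_inter_support_eq _ ?_
    ext p
    simp only [Set.mem_inter_iff, Function.mem_support, Finset.mem_coe, hmem]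
    constructor
    · rintro ⟨h1, h2⟩
      exact ⟨⟨h1, right_ne_zero_of_mul h2⟩, h2⟩
    · rintro ⟨h1, h2⟩
      exact ⟨h1.1, h2⟩
  rw [hsum]
  have hne : ∀ p ∈ F, φ p ≠ 0 := fun p hp => hφ0 p ((hmem p).1 hp).1
  have hΦ : (∏ p ∈ F, φ p ^ N p) ≠ 0 :=
    Finset.prod_ne_zero_iff.2 fun p hp => zpow_ne_zero _ (hne p hp)
  have hord : ∀ q ∈ V.primes, q.ord (∏ p ∈ F, φ p ^ N p) =
      N q - ∑ k, (∑ p ∈ F, (B.deg p k : ℤ) * N p) * (B.H k).div q := by
    intro q hq
    rw [cbd_prod q F φ hne]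
    have e1 : ∀ p ∈ F, N p * q.ord (φ p) =
        (if q = p then N p else 0) - N p * ∑ k, (B.deg p k : ℤ) * (B.H k).div q := by
      intro p hp
      by_cases hqp : q = p
      · subst hqp
        have := hφ1 q hq
        rw [if_pos rfl]
        linear_combination N q * this
      · have := hφ2 p ((hmem p).1 hp).1 q hq hqp
        rw [if_neg hqp]
        linear_combination N p * this
    rw [Finset.sum_congr rfl e1, Finset.sum_sub_distrib, Finset.sum_ite_eq]
    have e2 : (if q ∈ F then N q else 0) = N q := by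
      by_cases hqF : q ∈ F
      · rw [if_pos hqF]
      · rw [if_neg hqF]
        by_contra h
        exact hqF ((hmem q).2 ⟨hq, Ne.symm h⟩)
    rw [e2]
    congr 1
    simp only [Finset.mul_sum, Finset.sum_mul]
    rw [Finset.sum_comm]
    refine Finset.sum_congr rfl fun k _ => Finset.sum_congr rfl fun p _ => ?_
    ring
  have h0 := B.indep (fun k => b k - ∑ p ∈ F, (B.deg p k : ℤ) * N p)
    ((∏ p ∈ F, φ p ^ N p) * f⁻¹) (mul_ne_zero hΦ (inv_ne_zero hf)) (by
      intro q hq
      rw [q.ord_mul _ _ hΦ (inv_ne_zero hf), cbd_inv q f hf, hord q hq, hN q hq]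
      simp only [sub_mul, Finset.sum_sub_distrib]
      ring)
  have h1 := congrFun h0 l
  simp only [Pi.zero_apply] at h1
  linarith

/-- Module CBD. -/
theorem hCBD (hFSP : StFSP) : StCBD := by
  intro K _ _ V r B
  classical
  have hfin : ∀ k, {p : DivVal K | p ∈ V.primes ∧ (B.H k).div p ≠ 0}.Finite := by
    intro k
    refine ((B.H k).gens.finite_toSet.biUnion fun h hh =>
      hFSP K V h ((B.H k).ne_zero h hh)).subset ?_
    rintro p ⟨hp, hdiv⟩
    obtain ⟨h, hh, he⟩ := Finset.exists_mem_eq_sup' (B.H k).nonempty (fun f => - p.ord f)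
    refine Set.mem_iUnion₂.2 ⟨h, hh, hp, fun h0 => hdiv ?_⟩
    unfold LinSys.div
    rw [he, h0, neg_zero]
  have key2 : ∀ k l, ∑ᶠ p ∈ V.primes, (B.deg p l : ℤ) * (B.H k).div p =
      if l = k then 1 else 0 := by
    intro k l
    refine cbd_key V r B (fun p => (B.H k).div p) 1 one_ne_zero (fun j => if j = k then 1 else 0)
      (fun q _ => ?_) (hfin k) l
    simp [cbd_one]
  refine ⟨fun f hf l => ?_, hfin, fun k => ?_, fun k l hkl => ?_⟩
  · exact cbd_key V r B (fun p => p.ord f) f hf 0 (fun q _ => by simp) (hFSP K V f hf) l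
  · rw [key2, if_pos rfl]
  · rw [key2, if_neg hkl.symm]

end Pool.Agent.Helper67.GX
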