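import Pool.Agent.Helper98.GX.St

/-!
# Project GX, module CST: R-rational functions without zeros and poles in codimension one
-/

set_option autoImplicit false

open scoped BigOperators

namespace Pool.Agent.Helper67.GX

open Pool.Agent.Helper98.GX
open Pool.Agent.Helper53.CX (DivVal LinSys IsNefCartier)

section
variable {K : Type} [Field K] [Algebra ℂ K] (v : DivVal K)

private theorem cst_one : v.ord 1 = 0 := by
  have h := v.ord_mul 1 1 one_ne_zero one_ne_zero
  rw [one_mul] at h
  omega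

private theorem cst_pow (f : K) (hf : f ≠ 0) (n : ℕ) : v.ord (f ^ n) = n * v.ord f := by
  induction n with
  | zero => simp [cst_one]
  | succ n ih =>
    rw [pow_succ, v.ord_mul _ _ (pow_ne_zero _ hf) hf, ih]
    push_cast
    ring

private theorem cst_inv (f : K) (hf : f ≠ 0) : v.ord f⁻¹ = - v.ord f := by
  have h := v.ord_mul f f⁻¹ hf (inv_ne_zero hf)
  rw [mul_inv_cancel₀ hf, cst_one] at h
  omega

private theorem cst_zpow (f : K) (hf : f ≠ 0) (n : ℤ) : v.ord (f ^ n) = n * v.ord f := by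
  obtain ⟨k, rfl | rfl⟩ := n.eq_nat_or_neg
  · rw [zpow_natCast, cst_pow v f hf]
  · rw [zpow_neg, zpow_natCast, cst_inv v _ (pow_ne_zero _ hf), cst_pow v f hf]
    ring

private theorem cst_prod (s : Finset K) (hs : ∀ f ∈ s, f ≠ 0) (m : K → ℤ) :
    v.ord (∏ f ∈ s, f ^ m f) = ∑ f ∈ s, m f * v.ord f := by
  classical
  induction s using Finset.induction_on with
  | empty => simp [cst_one]
  | insert a s ha ih =>
    rw [Finset.prod_insert ha, Finset.sum_insert ha, v.ord_mul, cst_zpow v a (hs a (by simp)),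
      ih fun f hf => hs f (by simp [hf])]
    · exact zpow_ne_zero _ (hs a (by simp))
    · exact Finset.prod_ne_zero_iff.2 fun f hf => zpow_ne_zero _ (hs f (by simp [hf]))

private theorem cst_erase (s : Finset K) (m : K → ℤ) [DecidableEq K] :
    ∑ f ∈ s.erase 0, m f * v.ord f = ∑ f ∈ s, m f * v.ord f :=
  Finset.sum_erase _ (by rw [v.ord_zero, mul_zero])

end

/-- integral exponents -/
private theorem cst_int (hSTAR : StSTAR) (K : Type) [Field K] [Algebra ℂ K] (V : NormalProj K)
    (s : Finset K) (m : K → ℤ) (h : ∀ q ∈ V.primes, ∑ f ∈ s, m f * q.ord f = 0)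
    (v : DivVal K) : ∑ f ∈ s, m f * v.ord f = 0 := by
  classical
  have hne : ∀ f ∈ s.erase 0, f ≠ 0 := fun f hf => (Finset.mem_erase.1 hf).1
  have key : ∀ k : K → ℤ, (∀ q ∈ V.primes, ∑ f ∈ s, k f * q.ord f = 0) →
      0 ≤ ∑ f ∈ s, k f * v.ord f := by
    intro k hk
    have h0 : (∏ f ∈ s.erase 0, f ^ k f) ≠ 0 :=
      Finset.prod_ne_zero_iff.2 fun f hf => zpow_ne_zero _ (hne f hf)
    have h1 := hSTAR K V 0 _ h0 (fun q hq => by
      rw [cst_prod q _ hne, cst_erase, hk q hq]
      simp) v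
    rw [cst_prod v _ hne, cst_erase] at h1
    simpa using h1
  have h1 := key m h
  have h2 := key (fun f => - m f) (fun q hq => by
    simp only [neg_mul, Finset.sum_neg_distrib, h q hq, neg_zero])
  simp only [neg_mul, Finset.sum_neg_distrib] at h2
  omega

/-- rational exponents -/
private theorem cst_rat (hSTAR : StSTAR) (K : Type) [Field K] [Algebra ℂ K] (V : NormalProj K)
    (s : Finset K) (z : K → ℚ) (h : ∀ q ∈ V.primes, ∑ f ∈ s, z f * (q.ord f : ℚ) = 0)
    (v : DivVal K) : ∑ f ∈ s, z f * (v.ord f : ℚ) = 0 := by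
  obtain ⟨b, hb⟩ := IsLocalization.exist_integer_multiples (nonZeroDivisors ℤ) s z
  have hb0 : ((b : ℤ) : ℚ) ≠ 0 := by
    have := nonZeroDivisors.coe_ne_zero b
    exact_mod_cast this
  have hm : ∀ f : K, ∃ m : ℤ, f ∈ s → (m : ℚ) = (b : ℤ) * z f := by
    intro f
    by_cases hf : f ∈ s
    · obtain ⟨m, hm⟩ := hb f hf
      refine ⟨m, fun _ => ?_⟩
      rw [← zsmul_eq_mul]
      exact hm
    · exact ⟨0, fun h => (hf h).elim⟩
  choose m hm using hm
  have e : ∀ w : DivVal K, ((∑ f ∈ s, m f * w.ord f : ℤ) : ℚ) =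
      (b : ℤ) * ∑ f ∈ s, z f * (w.ord f : ℚ) := by
    intro w
    push_cast
    rw [Finset.mul_sum]
    refine Finset.sum_congr rfl fun f hf => ?_
    rw [hm f hf]
    ring
  have h1 := cst_int hSTAR K V s m (fun q hq => by
    have := e q
    rw [h q hq, mul_zero] at this
    exact_mod_cast this) v
  have h2 := e v
  rw [h1, Int.cast_zero] at h2
  rcases mul_eq_zero.1 h2.symm with h3 | h3
  · exact (hb0 h3).elim
  · exact h3

/-- Module CST. -/
theorem hCST (hSTAR : StSTAR) : StCST := by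
  intro K _ _ V g hg v
  let B := Module.Basis.ofVectorSpace ℚ ℝ
  have e : ∀ (w : DivVal K) (β), B.coord β (rdiv g w) =
      ∑ f ∈ g.support, B.coord β (g f) * (w.ord f : ℚ) := by
    intro w β
    unfold rdiv Finsupp.sum
    rw [map_sum]
    refine Finset.sum_congr rfl fun f _ => ?_
    show B.coord β (g f * (w.ord f : ℝ)) = _
    have h1 : g f * (w.ord f : ℝ) = w.ord f • g f := by
      rw [zsmul_eq_mul, mul_comm]
    rw [h1, map_zsmul, zsmul_eq_mul, mul_comm]
  have h0 : ∀ β, B.coord β (rdiv g v) = 0 := by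
    intro β
    rw [e]
    refine cst_rat hSTAR K V g.support (fun f => B.coord β (g f)) (fun q hq => ?_) v
    rw [← e, hg q hq, map_zero]
  exact B.forall_coord_eq_zero_iff.1 h0

end Pool.Agent.Helper67.GX
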