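import Pool.Agent.Helper98.GX.St3

/-!
# Project GX, module LPX: the charts of a frame
-/

set_option autoImplicit false

open scoped BigOperators

namespace Pool.Agent.Helper67.GX

open Pool.Agent.Helper98.GX
open Pool.Agent.Helper53.CX (DivVal LinSys IsNefCartier)

section
variable {K : Type} [Field K] [Algebra ℂ K]

private theorem lpx_one (v : DivVal K) : v.ord 1 = 0 := by
  have h := v.ord_mul 1 1 one_ne_zero one_ne_zero
  rw [one_mul] at h
  omega

/-- nonzero constants have order zero -/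
private theorem lpx_const (v : DivVal K) (c : ℂ) (hc : c ≠ 0) : v.ord (algebraMap ℂ K c) = 0 := by
  obtain ⟨R, _, hR, _⟩ := v.exists_model
  have h1 : ∀ d : ℂ, d ≠ 0 → 0 ≤ v.ord (algebraMap ℂ K d) := fun d hd =>
    hR _ (R.algebraMap_mem d) (by simpa using hd)
  have h2 := h1 c hc
  have h3 := h1 c⁻¹ (inv_ne_zero hc)
  have h4 := v.ord_mul (algebraMap ℂ K c) (algebraMap ℂ K c⁻¹) (by simpa using hc)
    (by simpa using hc)
  rw [← map_mul, mul_inv_cancel₀ hc, map_one, lpx_one] at h4
  omega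

private theorem lpx_zpow (D : Derivation ℂ K K) (a : K) (ha : a ≠ 0) (n : ℤ) :
    D (a ^ n) = a ^ n * ((n : K) * (D a / a)) := by
  rw [D.leibniz_zpow, zpow_sub_one₀ ha, zsmul_eq_mul, smul_eq_mul]
  ring

private theorem lpx_prod (D : Derivation ℂ K K) {ι : Type} (s : Finset ι) (u : ι → K)
    (hu : ∀ i, u i ≠ 0) (m : ι → ℤ) :
    D (∏ i ∈ s, u i ^ m i) = (∏ i ∈ s, u i ^ m i) * ∑ i ∈ s, (m i : K) * (D (u i) / u i) := by
  classical
  induction s using Finset.induction_on with
  | empty => simp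
  | insert a s ha ih =>
    rw [Finset.prod_insert ha, Finset.sum_insert ha, D.leibniz, ih, lpx_zpow D _ (hu a),
      smul_eq_mul, smul_eq_mul]
    ring

/-- another transcendence basis -/
private theorem lpx_basis {n : ℕ} (z u : Fin n → K) (hz : IsTranscendenceBasis ℂ z)
    (M : Fin n → Fin n → ℤ) (h : ∀ j, z j = ∏ b, u b ^ M j b) : IsTranscendenceBasis ℂ u := by
  have h1 : Algebra.IsAlgebraic (IntermediateField.adjoin ℂ (Set.range z)) K :=
    hz.isAlgebraic_field
  have hle : IntermediateField.adjoin ℂ (Set.range z) ≤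
      IntermediateField.adjoin ℂ (Set.range u) := by
    rw [IntermediateField.adjoin_le_iff]
    rintro _ ⟨j, rfl⟩
    rw [h j]
    refine prod_mem fun b _ => zpow_mem ?_ _
    exact IntermediateField.subset_adjoin _ _ ⟨b, rfl⟩
  have h2 : Algebra.IsAlgebraic (IntermediateField.adjoin ℂ (Set.range u)) K := by
    let _ := (IntermediateField.inclusion hle).toAlgebra
    have : IsScalarTower (IntermediateField.adjoin ℂ (Set.range z))
        (IntermediateField.adjoin ℂ (Set.range u)) K :=
      IsScalarTower.of_algebraMap_eq fun _ => rfl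
    exact Algebra.IsAlgebraic.tower_top (K := IntermediateField.adjoin ℂ (Set.range z)) _
  have h3 : Algebra.IsAlgebraic (Algebra.adjoin ℂ (Set.range u)) K :=
    IntermediateField.isAlgebraic_adjoin_iff_top.1 h2
  exact Algebra.IsAlgebraic.isTranscendenceBasis_of_le_trdeg_of_finite ℂ u
    (by rw [hz.cardinalMk_eq_trdeg])

/-- the order of the top form under a monomial change of coordinates -/
private theorem lpx_omega {n : ℕ} (L L' : LogCoord K n) (d : ℂ) (hd : d ≠ 0)
    (h : ∀ f, jac L' f = algebraMap ℂ K d * jac L f) (v : DivVal K) :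
    ordOmega L' v = ordOmega L v := by
  have h0 : algebraMap ℂ K d ≠ 0 := by simpa using hd
  have h1 : ∀ f, (jac L' f ≠ 0 ↔ jac L f ≠ 0) := fun f => by
    rw [h, ne_eq, mul_eq_zero, not_or]
    exact ⟨fun h => h.2, fun h => ⟨h0, h⟩⟩
  have h2 : ∀ f, jac L f ≠ 0 → v.ord (jac L' f) = v.ord (jac L f) := fun f hf => by
    rw [h, v.ord_mul _ _ h0 hf, lpx_const v d hd, zero_add]
  have h3 : IsJacMin L' v = IsJacMin L v := by
    funext e
    apply propext
    constructor
    · rintro ⟨a1, f, a2, a3, a4⟩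
      refine ⟨fun g hg1 hg2 => ?_, f, a2, (h1 f).1 a3, ?_⟩
      · rw [← h2 g hg2]
        exact a1 g hg1 ((h1 g).2 hg2)
      · rw [← h2 f ((h1 f).1 a3)]
        exact a4
    · rintro ⟨a1, f, a2, a3, a4⟩
      refine ⟨fun g hg1 hg2 => ?_, f, a2, (h1 f).2 a3, ?_⟩
      · rw [h2 g ((h1 g).1 hg2)]
        exact a1 g hg1 ((h1 g).1 hg2)
      · rw [h2 f a3]
        exact a4
  unfold ordOmega
  rw [h3]

end

theorem hLPX : StLPX := by
  classical
  intro K _ _ V r B n L Fr β hβ
  -- the indices outside the range of `β`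
  have hinj : Function.Injective β := fun a b h => by rw [← hβ a, ← hβ b, h]
  have hmem : ∀ a, a ∈ Finset.univ.image β ↔ a = β (Fr.bl a) := by
    intro a
    rw [Finset.mem_image]
    constructor
    · rintro ⟨k, _, rfl⟩
      rw [hβ]
    · intro h
      exact ⟨Fr.bl a, Finset.mem_univ _, h.symm⟩
  have hcard : (Finset.univ.image β)ᶜ.card = n := by
    rw [Finset.card_compl, Finset.card_image_of_injective _ hinj, Fintype.card_fin,
      Finset.card_univ, Fintype.card_fin]
    omega
  let em := (Finset.univ.image β)ᶜ.orderEmbOfFin hcard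
  obtain ⟨e, he⟩ : ∃ e : Fin n → Fin (n + r), e = fun j => em j := ⟨_, rfl⟩
  have einj : Function.Injective e := by
    rw [he]
    exact em.injective
  have erange : ∀ a, (∃ j, e j = a) ↔ a ≠ β (Fr.bl a) := by
    intro a
    rw [ne_eq, ← hmem a, ← Finset.mem_compl, ← Finset.mem_coe,
      ← Finset.range_orderEmbOfFin _ hcard, he]
    rfl
  -- the new coordinates
  obtain ⟨u, hu⟩ : ∃ u : Fin n → K, ∀ j, u j = Fr.g (e j) / Fr.g (β (Fr.bl (e j))) :=
    ⟨_, fun _ => rfl⟩
  have hu0 : ∀ j, u j ≠ 0 := fun j => by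
    rw [hu]
    exact div_ne_zero (Fr.ne _) (Fr.ne _)
  have hw : ∀ a, ∃ m : Fin n → ℤ, Fr.g a / Fr.g (β (Fr.bl a)) = ∏ b, u b ^ m b := by
    intro a
    by_cases ha : a = β (Fr.bl a)
    · refine ⟨0, ?_⟩
      rw [← ha, div_self (Fr.ne a)]
      simp
    · obtain ⟨j, hj⟩ := (erange a).2 ha
      refine ⟨Pi.single j 1, ?_⟩
      rw [Finset.prod_eq_single j, Pi.single_eq_same, zpow_one, hu, hj]
      · intro b _ hb
        rw [Pi.single_eq_of_ne hb, zpow_zero]
      · intro h
        exact absurd (Finset.mem_univ j) h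
  have hM : ∀ j, ∃ m : Fin n → ℤ, L.z j = ∏ b, u b ^ m b := by
    intro j
    obtain ⟨a, a', h1, h2⟩ := Fr.ratio j
    obtain ⟨m, hm⟩ := hw a
    obtain ⟨m', hm'⟩ := hw a'
    refine ⟨fun b => m b - m' b, ?_⟩
    have h3 : ∏ b, u b ^ (m b - m' b) = (∏ b, u b ^ m b) / ∏ b, u b ^ m' b := by
      rw [← Finset.prod_div_distrib]
      exact Finset.prod_congr rfl fun b _ => zpow_sub₀ (hu0 b) _ _
    rw [h3, ← hm, ← hm', h2, h1]
    have := Fr.ne a'
    have := Fr.ne (β (Fr.bl a'))
    field_simp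
  choose M hM using hM
  -- the matrices
  let MK : Matrix (Fin n) (Fin n) K := fun j b => ((M j b : ℤ) : K)
  let N : Matrix (Fin n) (Fin n) K := fun c i => L.θ i (u c) / u c
  have hz0 : ∀ j, L.z j ≠ 0 := fun j => by
    rw [hM]
    exact Finset.prod_ne_zero_iff.2 fun b _ => zpow_ne_zero _ (hu0 b)
  have hMN : MK * N = 1 := by
    ext j i
    rw [Matrix.mul_apply, Matrix.one_apply]
    have h1 := L.theta_z j i
    rw [hM j, lpx_prod (L.θ i) _ u hu0] at h1
    change ∑ c, ((M j c : ℤ) : K) * (L.θ i (u c) / u c) = _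
    rw [← hM j] at h1
    by_cases hji : j = i
    · rw [if_pos hji] at h1 ⊢
      exact mul_left_cancel₀ (hz0 j) (by rw [h1, mul_one])
    · rw [if_neg hji] at h1 ⊢
      exact (mul_eq_zero.1 h1).resolve_left (hz0 j)
  have hNM : N * MK = 1 := mul_eq_one_comm.1 hMN
  -- the new derivations
  let θ' : Fin n → Derivation ℂ K K := fun b => ∑ j, ((M j b : ℤ) : K) • L.θ j
  have hθ' : ∀ b x, θ' b x = ∑ j, L.θ j x * ((M j b : ℤ) : K) := by
    intro b x
    have h1 := congr_fun (map_sum (Derivation.coeFnAddMonoidHom : Derivation ℂ K K →+ K → K)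
      (fun j => ((M j b : ℤ) : K) • L.θ j) Finset.univ) x
    rw [Finset.sum_apply] at h1
    exact h1.trans (Finset.sum_congr rfl fun j _ => mul_comm _ _)
  have hth : ∀ c b, θ' b (u c) = if c = b then u c else 0 := by
    intro c b
    have h1 : (N * MK) c b = (1 : Matrix (Fin n) (Fin n) K) c b := by rw [hNM]
    rw [Matrix.mul_apply, Matrix.one_apply] at h1
    have h2 : θ' b (u c) = u c * ∑ j, N c j * MK j b := by
      rw [hθ', Finset.mul_sum]
      refine Finset.sum_congr rfl fun j _ => ?_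
      change _ = u c * (L.θ j (u c) / u c * ((M j b : ℤ) : K))
      have := hu0 c
      field_simp
    rw [h2, h1]
    split_ifs <;> simp
  let L' : LogCoord K n :=
    { z := u
      θ := θ'
      basis := lpx_basis L.z u L.basis M hM
      theta_z := hth }
  refine ⟨L', e, hβ, einj, erange, hu, ?_⟩
  -- the top form
  let MZ : Matrix (Fin n) (Fin n) ℤ := M
  have hdet : MK.det = algebraMap ℂ K ((MZ.det : ℤ) : ℂ) := by
    rw [map_intCast, Int.cast_det]
    rfl
  refine lpx_omega L L' ((MZ.det : ℤ) : ℂ) ?_ ?_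
  · intro h0
    rw [h0, map_zero] at hdet
    have h1 : MK.det * N.det = 1 := by rw [← Matrix.det_mul, hMN, Matrix.det_one]
    rw [hdet, zero_mul] at h1
    exact zero_ne_one h1
  · intro f
    rw [← hdet]
    have h1 : (Matrix.of fun i j => L'.θ j (f i)) = (Matrix.of fun i j => L.θ j (f i)) * MK := by
      ext i j
      rw [Matrix.mul_apply]
      exact hθ' j (f i)
    unfold jac
    rw [h1, Matrix.det_mul, mul_comm]

end Pool.Agent.Helper67.GX
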