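import Pool.Agent.Helper98.GX.St4

/-!
# Project GX, module NRM: a nef b-divisor of degree one in codimension one
-/

set_option autoImplicit false

open scoped BigOperators

namespace Pool.Agent.Helper67.GX

open Pool.Agent.Helper98.GX
open Pool.Agent.Helper53.CX (DivVal LinSys IsNefCartier)

section
variable {K : Type} [Field K] [Algebra ℂ K]

private theorem nrm_one (v : DivVal K) : v.ord 1 = 0 := by
  have h := v.ord_mul 1 1 one_ne_zero one_ne_zero
  rw [one_mul] at h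
  omega

private theorem nrm_pow (v : DivVal K) (f : K) (hf : f ≠ 0) (n : ℕ) :
    v.ord (f ^ n) = n * v.ord f := by
  induction n with
  | zero => simp [nrm_one]
  | succ n ih =>
    rw [pow_succ, v.ord_mul _ _ (pow_ne_zero _ hf) hf, ih]
    push_cast
    ring

private theorem nrm_inv (v : DivVal K) (f : K) (hf : f ≠ 0) : v.ord f⁻¹ = - v.ord f := by
  have h := v.ord_mul f f⁻¹ hf (inv_ne_zero hf)
  rw [mul_inv_cancel₀ hf, nrm_one] at h
  omega

private theorem nrm_zpow (v : DivVal K) (f : K) (hf : f ≠ 0) (n : ℤ) :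
    v.ord (f ^ n) = n * v.ord f := by
  obtain ⟨k, rfl | rfl⟩ := n.eq_nat_or_neg
  · rw [zpow_natCast, nrm_pow v f hf]
  · rw [zpow_neg, zpow_natCast, nrm_inv v _ (pow_ne_zero _ hf), nrm_pow v f hf]
    ring

private theorem nrm_prod (v : DivVal K) {ι : Type} (s : Finset ι) (φ : ι → K)
    (hs : ∀ i ∈ s, φ i ≠ 0) (m : ι → ℤ) :
    v.ord (∏ i ∈ s, φ i ^ m i) = ∑ i ∈ s, m i * v.ord (φ i) := by
  classical
  induction s using Finset.induction_on with
  | empty => simp [nrm_one]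
  | insert a s ha ih =>
    rw [Finset.prod_insert ha, Finset.sum_insert ha, v.ord_mul, nrm_zpow v _ (hs a (by simp)),
      ih fun f hf => hs f (by simp [hf])]
    · exact zpow_ne_zero _ (hs a (by simp))
    · exact Finset.prod_ne_zero_iff.2 fun f hf => zpow_ne_zero _ (hs f (by simp [hf]))

private theorem nrm_le_div (F : LinSys K) (v : DivVal K) {f : K} (hf : f ∈ F.gens) :
    -v.ord f ≤ F.div v :=
  Finset.le_sup' (fun f => - v.ord f) hf

private theorem nrm_div_eq (F : LinSys K) (v : DivVal K) :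
    ∃ f ∈ F.gens, F.div v = - v.ord f := by
  obtain ⟨f, hf, h⟩ := Finset.exists_mem_eq_sup' F.nonempty (fun f => - v.ord f)
  exact ⟨f, hf, h⟩

private theorem nrm_fin (hFSP : StFSP) (V : NormalProj K) (F : LinSys K) :
    {p | p ∈ V.primes ∧ F.div p ≠ 0}.Finite := by
  have h : (⋃ f ∈ (F.gens : Set K), {p | p ∈ V.primes ∧ p.ord f ≠ 0}).Finite :=
    Set.Finite.biUnion F.gens.finite_toSet (fun f hf => hFSP K V f (F.ne_zero f hf))
  refine h.subset ?_
  rintro p ⟨hp, hne⟩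
  obtain ⟨f, hf, hfe⟩ := nrm_div_eq F p
  rw [hfe] at hne
  exact Set.mem_biUnion (show f ∈ (F.gens : Set K) from hf)
    ⟨hp, fun h0 => hne (by rw [h0, neg_zero])⟩

private theorem nrm_fs {α : Type} {S : Set α} {T : Finset α} (u : α → ℤ)
    (h1 : ∀ p ∈ T, p ∈ S) (h2 : ∀ p ∈ S, p ∉ T → u p = 0) :
    ∑ᶠ p ∈ S, u p = ∑ p ∈ T, u p := by
  refine finsum_mem_eq_sum_of_inter_support_eq u ?_
  ext p
  simp only [Set.mem_inter_iff, Function.mem_support, Finset.mem_coe]
  constructor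
  · rintro ⟨hp, hne⟩
    refine ⟨?_, hne⟩
    by_contra hT
    exact hne (h2 p hp hT)
  · rintro ⟨hp, hne⟩
    exact ⟨h1 p hp, hne⟩

/-- the degree of a free linear system is nonnegative -/
private theorem nrm_key (hFSP : StFSP) (hCBD : StCBD) {V : NormalProj K} {r : ℕ}
    (B : ClassBasis V r) (T0 : Finset (DivVal K)) (hT0 : ∀ p ∈ T0, p ∈ V.primes) (F : LinSys K)
    (hF0 : ∀ p ∈ V.primes, p ∉ T0 → F.div p = 0) (l : Fin r) :
    0 ≤ ∑ p ∈ T0, (B.deg p l : ℤ) * F.div p := by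
  classical
  obtain ⟨f, hf⟩ := F.nonempty
  have hf0 := F.ne_zero f hf
  set T1 := (hFSP K V f hf0).toFinset with hT1
  have hT1m : ∀ p, p ∈ T1 ↔ p ∈ V.primes ∧ p.ord f ≠ 0 := by
    intro p
    rw [hT1, Set.Finite.mem_toFinset]
    rfl
  have hTS : ∀ p ∈ T0 ∪ T1, p ∈ V.primes := by
    intro p hp
    rcases Finset.mem_union.mp hp with h | h
    · exact hT0 p h
    · exact ((hT1m p).mp h).1
  have s1 : ∑ p ∈ T0 ∪ T1, (B.deg p l : ℤ) * p.ord f = 0 := by
    rw [← (hCBD K V r B).1 f hf0 l]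
    refine (nrm_fs _ hTS ?_).symm
    intro p hp hn
    rw [Finset.mem_union, not_or] at hn
    have h1 : p.ord f = 0 := by
      by_contra h
      exact hn.2 ((hT1m p).mpr ⟨hp, h⟩)
    rw [h1, mul_zero]
  have s2 : ∑ p ∈ T0, (B.deg p l : ℤ) * F.div p = ∑ p ∈ T0 ∪ T1, (B.deg p l : ℤ) * F.div p := by
    refine Finset.sum_subset Finset.subset_union_left ?_
    intro p hp hn
    rw [hF0 p (hTS p hp) hn, mul_zero]
  have s3 : 0 ≤ ∑ p ∈ T0 ∪ T1, (B.deg p l : ℤ) * (p.ord f + F.div p) := by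
    refine Finset.sum_nonneg fun p _ => mul_nonneg (Int.natCast_nonneg _) ?_
    have := nrm_le_div F p hf
    omega
  have s4 : ∑ p ∈ T0 ∪ T1, (B.deg p l : ℤ) * (p.ord f + F.div p) =
      ∑ p ∈ T0 ∪ T1, (B.deg p l : ℤ) * p.ord f + ∑ p ∈ T0 ∪ T1, (B.deg p l : ℤ) * F.div p := by
    rw [← Finset.sum_add_distrib]
    exact Finset.sum_congr rfl fun p _ => mul_add _ _ _
  rw [s4, s1, zero_add] at s3
  rw [s2]
  exact s3

end

/-- nonnegative integers with sum one -/
private theorem nrm_unit {r : ℕ} (δ : Fin r → ℤ) (h0 : ∀ l, 0 ≤ δ l) (h1 : ∑ l, δ l = 1) :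
    ∃ k, ∀ l, δ l = if l = k then 1 else 0 := by
  classical
  have h2 : ∃ k, δ k ≠ 0 := by
    by_contra hcon
    push Not at hcon
    rw [Finset.sum_eq_zero fun l _ => hcon l] at h1
    exact zero_ne_one h1
  obtain ⟨k, hk⟩ := h2
  have h3 : 1 ≤ δ k := by
    have := h0 k
    omega
  have h4 : δ k + ∑ l ∈ Finset.univ.erase k, δ l = 1 := by
    rw [Finset.add_sum_erase _ _ (Finset.mem_univ k), h1]
  have h5 : 0 ≤ ∑ l ∈ Finset.univ.erase k, δ l := Finset.sum_nonneg fun l _ => h0 l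
  have h6 : ∑ l ∈ Finset.univ.erase k, δ l = 0 := by omega
  refine ⟨k, fun l => ?_⟩
  split_ifs with hl
  · rw [hl]
    omega
  · exact (Finset.sum_eq_zero_iff_of_nonneg fun l _ => h0 l).1 h6 l
      (Finset.mem_erase.2 ⟨hl, Finset.mem_univ l⟩)

theorem hNRM (hFSP : StFSP) (hCBD : StCBD) : StNRM := by
  intro K _ _ V r B n L Fr β hβ M hM hdeg
  classical
  obtain ⟨A, hA⟩ := hM
  obtain ⟨N1, F1, hN1, hF1⟩ := hA 1 le_rfl
  have hMfin : {p | p ∈ V.primes ∧ M p ≠ 0}.Finite := by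
    refine ((nrm_fin hFSP V A).union (nrm_fin hFSP V F1)).subset ?_
    rintro p ⟨hp, hne⟩
    by_contra hcon
    have h1 : A.div p = 0 := by
      by_contra h
      exact hcon (Or.inl ⟨hp, h⟩)
    have h2 : F1.div p = 0 := by
      by_contra h
      exact hcon (Or.inr ⟨hp, h⟩)
    have h3 := hF1 p
    rw [h1, h2, Nat.cast_one, one_mul, add_zero] at h3
    rcases mul_eq_zero.mp h3 with h | h
    · have : (1 : ℤ) ≤ N1 := by exact_mod_cast hN1
      omega
    · exact hne h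
  set T0 := hMfin.toFinset ∪ (nrm_fin hFSP V A).toFinset with hT0
  have hTM : ∀ p ∈ V.primes, p ∉ T0 → M p = 0 := by
    intro p hp hn
    by_contra h
    exact hn (Finset.mem_union_left _ ((Set.Finite.mem_toFinset _).mpr ⟨hp, h⟩))
  have hTA : ∀ p ∈ V.primes, p ∉ T0 → A.div p = 0 := by
    intro p hp hn
    by_contra h
    exact hn (Finset.mem_union_right _ ((Set.Finite.mem_toFinset _).mpr ⟨hp, h⟩))
  have hTS : ∀ p ∈ T0, p ∈ V.primes := by
    intro p hp
    rcases Finset.mem_union.mp hp with h | h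
    · exact ((Set.Finite.mem_toFinset _).mp h).1
    · exact ((Set.Finite.mem_toFinset _).mp h).1
  obtain ⟨δ, hδ⟩ : ∃ δ : Fin r → ℤ, ∀ l, δ l = ∑ p ∈ T0, (B.deg p l : ℤ) * M p :=
    ⟨_, fun _ => rfl⟩
  obtain ⟨al, hal⟩ : ∃ al : Fin r → ℤ, ∀ l, al l = ∑ p ∈ T0, (B.deg p l : ℤ) * A.div p :=
    ⟨_, fun _ => rfl⟩
  have hmd : ∀ m : ℕ, 1 ≤ m → ∀ l, 0 ≤ (m : ℤ) * δ l + al l := by
    intro m hm l
    obtain ⟨N, F, hN, hF⟩ := hA m hm
    have h1 := nrm_key hFSP hCBD B T0 hTS F (fun p hp hn => by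
      rw [← hF p, hTM p hp hn, hTA p hp hn]
      simp) l
    have h2 : ∑ p ∈ T0, (B.deg p l : ℤ) * F.div p = (N : ℤ) * ((m : ℤ) * δ l + al l) := by
      rw [hδ, hal, mul_add, Finset.mul_sum, Finset.mul_sum, Finset.mul_sum,
        ← Finset.sum_add_distrib]
      refine Finset.sum_congr rfl fun p _ => ?_
      rw [← hF p]
      ring
    rw [h2] at h1
    have h3 : (0 : ℤ) < N := by exact_mod_cast hN
    exact nonneg_of_mul_nonneg_right h1 h3
  have hd0 : ∀ l, 0 ≤ δ l := by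
    intro l
    by_contra hcon
    have h1 := hmd ((al l).natAbs + 1) (by omega) l
    have h2 : δ l ≤ -1 := by omega
    have h3 : ((((al l).natAbs + 1 : ℕ)) : ℤ) * δ l ≤ (((al l).natAbs + 1 : ℕ) : ℤ) * (-1) :=
      mul_le_mul_of_nonneg_left h2 (Int.natCast_nonneg _)
    have h4 : al l ≤ |al l| := le_abs_self _
    push_cast at h1 h3
    omega
  have hd1 : ∑ l, δ l = 1 := by
    rw [← hdeg, nrm_fs (T := T0) _ hTS (fun p hp hn => by rw [hTM p hp hn, mul_zero])]
    simp only [hδ]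
    rw [Finset.sum_comm]
    exact Finset.sum_congr rfl fun p _ => (Finset.sum_mul _ _ _).symm
  obtain ⟨k, hk⟩ := nrm_unit δ hd0 hd1
  -- the function
  have hsec := B.sec
  choose! φ hφ0 hφ1 hφ2 using hsec
  set h0 := ∏ q ∈ T0, φ q ^ M q with hh0
  have h00 : h0 ≠ 0 := Finset.prod_ne_zero_iff.2 fun q hq => zpow_ne_zero _ (hφ0 q (hTS q hq))
  have hord : ∀ q' ∈ V.primes, q'.ord h0 = M q' - (B.H k).div q' := by
    intro q' hq'
    rw [hh0, nrm_prod q' T0 φ (fun q hq => hφ0 q (hTS q hq))]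
    have h1 : ∀ q ∈ T0, M q * q'.ord (φ q) =
        (if q = q' then M q else 0) - ∑ l, (B.deg q l : ℤ) * M q * (B.H l).div q' := by
      intro q hq
      have h2 : q'.ord (φ q) = (if q = q' then 1 else 0) - ∑ l, (B.deg q l : ℤ) * (B.H l).div q' := by
        split_ifs with h
        · rw [h]
          have := hφ1 q' hq'
          omega
        · have := hφ2 q (hTS q hq) q' hq' (fun h' => h h'.symm)
          omega
      rw [h2, mul_sub, Finset.mul_sum]
      congr 1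
      · split_ifs <;> simp
      · refine Finset.sum_congr rfl fun l _ => ?_
        ring
    rw [Finset.sum_congr rfl h1, Finset.sum_sub_distrib]
    congr 1
    · by_cases hqT : q' ∈ T0
      · rw [Finset.sum_ite_eq' T0 q', if_pos hqT]
      · rw [Finset.sum_ite_eq' T0 q', if_neg hqT, hTM q' hq' hqT]
    · rw [Finset.sum_comm]
      have h3 : ∀ l : Fin r, ∑ q ∈ T0, (B.deg q l : ℤ) * M q * (B.H l).div q' =
          (if l = k then (B.H l).div q' else 0) := by
        intro l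
        rw [← Finset.sum_mul, ← hδ, hk]
        split_ifs <;> simp
      rw [Finset.sum_congr rfl fun l _ => h3 l, Finset.sum_ite_eq' Finset.univ k,
        if_pos (Finset.mem_univ k)]
  have hg0 := Fr.ne (β k)
  have hordh : ∀ q ∈ V.primes, q.ord (h0 / Fr.g (β k)) =
      M q - (B.H k).div q - q.ord (Fr.g (β k)) := by
    intro q hq
    rw [div_eq_mul_inv, q.ord_mul _ _ h00 (inv_ne_zero hg0), nrm_inv q _ hg0, hord q hq]
    ring
  refine ⟨k, h0 / Fr.g (β k), div_ne_zero h00 hg0, ?_, ?_⟩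
  · intro q hq hqe
    rw [hordh q hq]
    have h1 := Fr.div_self (β k)
    rw [hβ k, ← hqe] at h1
    omega
  · intro q hq hqe
    rw [hordh q hq]
    have h1 := Fr.div_other (β k) q hq hqe
    rw [hβ k] at h1
    omega

end Pool.Agent.Helper67.GX
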